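import Pool.Agent.H79.MC.Targets

/-!
Module BDY: one step of the inner loop.
-/

set_option autoImplicit false

namespace Pool.Agent.H4.MXC.BDY

open Pool.Agent.H79.MC

theorem ex_mono {W : ℕ} {p : Prog} {s : St} {T T' : ℕ} {Q Q' : St → Prop} (h : Ex W p s T Q)
    (hT : T ≤ T') (hQ : ∀ s', Q s' → Q' s') : Ex W p s T' Q' := by
  obtain ⟨t, s', h1, h2, h3⟩ := h
  exact ⟨t, s', h1, h2.trans hT, hQ s' h3⟩

theorem ex_seq {W : ℕ} {p q : Prog} {s : St} {T T' : ℕ} {Q Q' : St → Prop} (h : Ex W p s T Q)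
    (h' : ∀ s', Q s' → Ex W q s' T' Q') : Ex W (.seq p q) s (T + T') Q' := by
  obtain ⟨t, s', h1, h2, h3⟩ := h
  obtain ⟨t', s'', h4, h5, h6⟩ := h' s' h3
  exact ⟨t + t', s'', .seq h1 h4, add_le_add h2 h5, h6⟩

theorem ex_assoc {W : ℕ} {p q r : Prog} {s : St} {T : ℕ} {Q : St → Prop}
    (h : Ex W (.seq (.seq p q) r) s T Q) : Ex W (.seq p (.seq q r)) s T Q := by
  obtain ⟨t, s', h1, h2, h3⟩ := h
  cases h1 with
  | seq h4 h5 =>
    cases h4 with
    | seq h6 h7 =>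
      refine ⟨_, s', .seq h6 (.seq h7 h5), ?_, h3⟩
      omega

theorem ex_set {W i : ℕ} {e : Exp} {s : St} {Q : St → Prop} (h : mx s e ≤ W)
    (h' : Q (s.setr i (ev s e))) : Ex W (.set i e) s 1 Q :=
  ⟨1, _, .set i e s h, le_refl _, h'⟩

theorem ex_ite {W : ℕ} {e : Exp} {p q : Prog} {s : St} {T : ℕ} {Q : St → Prop} (h : mx s e ≤ W)
    (h1 : ev s e ≠ 0 → Ex W p s T Q) (h2 : ev s e = 0 → Ex W q s T Q) :
    Ex W (.ite e p q) s (T + 1) Q := by
  by_cases h0 : ev s e = 0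
  · obtain ⟨t, s', h3, h4, h5⟩ := h2 h0
    exact ⟨t + 1, s', .ite_false h h0 h3, by omega, h5⟩
  · obtain ⟨t, s', h3, h4, h5⟩ := h1 h0
    exact ⟨t + 1, s', .ite_true h h0 h3, by omega, h5⟩

theorem agree_trans {R R' R'' K K' K'' : Finset ℕ} {s s' s'' : St} (h : Agree R K s s')
    (h' : Agree R' K' s' s'') (hR : R ⊆ R'') (hR' : R' ⊆ R'') (hK : K ⊆ K'') (hK' : K' ⊆ K'') :
    Agree R'' K'' s s'' :=
  ⟨fun i hi => (h'.1 i fun e => hi (hR' e)).trans (h.1 i fun e => hi (hR e)),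
    fun k hk => (h'.2 k fun e => hk (hK' e)).trans (h.2 k fun e => hk (hK e))⟩

theorem agree_setr (s : St) (i v : ℕ) : Agree {i} ∅ s (s.setr i v) := by
  refine ⟨fun k hk => ?_, fun _ _ => rfl⟩
  simp only [St.setr]
  rw [Function.update_of_ne]
  intro e
  exact hk (by rw [e]; exact Finset.mem_singleton_self i)

/-- the low bits are zero iff the position of the increment is high -/
theorem low_iff {X p b : ℕ} (h1 : X % 2 ^ p = 0) (h2 : bits X p = 1) :
    p + 1 - b ≠ 0 ↔ X % 2 ^ b = 0 := by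
  constructor
  · intro h
    have hbp : b ≤ p := by omega
    exact Nat.mod_eq_zero_of_dvd ((pow_dvd_pow 2 hbp).trans (Nat.dvd_of_mod_eq_zero h1))
  · intro h h3
    have hpb : p + 1 ≤ b := by omega
    have h4 : 2 ^ (p + 1) ∣ X := (pow_dvd_pow 2 hpb).trans (Nat.dvd_of_mod_eq_zero h)
    obtain ⟨k, hk⟩ := h4
    unfold bits at h2
    rw [hk, pow_succ, mul_assoc, Nat.mul_div_cancel_left _ (Nat.two_pow_pos p)] at h2
    omega

/-- the state after the first increment -/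
structure Mid (a q n : ℕ) (A : ℕ → ℕ → ℕ) (j X : ℕ) (P : Prop) (s s' : St) : Prop where
  ag : Agree {8, 9, 10, 11, 12, 13, 14} {1, 2} s s'
  out : Out n A s'
  r14 : s'.r 14 ≤ s.r 14
  val : P → s'.r 14 ≤ valF n A j (bits X)
  ex : ∃ X', (P → X' = X + 1) ∧ (¬ P → X' = X + 2 ^ (2 ^ a * q)) ∧
    ((s'.r 12 = 1 ∧ X' < 2 ^ n ∧ (∀ i < n, s'.a 2 i = bits X' i) ∧ s'.r 11 < n ∧
      X' % 2 ^ (s'.r 11) = 0 ∧ bits X' (s'.r 11) = 1) ∨
    (s'.r 12 = 0 ∧ s'.r 11 = n ∧ 2 ^ n ≤ X'))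

theorem par_bound {a q n : ℕ} {A : ℕ → ℕ → ℕ} {W : ℕ} (hP : Par a q n A W) : n + 3 ≤ W := by
  have h1 := hP.hW
  have h2 : 1 ≤ 2 ^ a := Nat.one_le_two_pow
  have h3 : 4 * (n + 1) ≤ (2 * 2 ^ a + a + 4) * (n + 1) * (n + 1) := by
    calc 4 * (n + 1) ≤ (2 * 2 ^ a + a + 4) * (n + 1) * 1 := by
          rw [mul_one]
          exact Nat.mul_le_mul_right _ (by omega)
      _ ≤ _ := Nat.mul_le_mul_left _ (by omega)
  omega

theorem mid (hBD1 : T_BD1) (hBD2 : T_BD2) (hINC : T_INC) (a q n : ℕ) (A : ℕ → ℕ → ℕ)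
    (W j τ g X c : ℕ) (s : St) (hP : Par a q n A W) (hB : Base a q n A s)
    (hD : Dec a q n j τ g s) (hj : j < n) (hτ : τ ≤ 2 * 2 ^ a * (n * n))
    (hI : Inn a q n X c s) (hO : Out n A s) (h14 : s.r 14 ≤ n * n + 1) {r : Prog} {T : ℕ}
    {Q : St → Prop}
    (hr : ∀ s', Mid a q n A j X (X % 2 ^ (2 ^ a * q) ≠ 0 ∨ testF a q n A j g (bits X) ≤ τ) s s' →
      Ex W r s' T Q) :
    Ex W (.seq (.ite (.reg 15) (.seq (sumP testE) (.set 13 (.sub (.add (.reg 5) (.lit 1)) (.reg 10))))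
      (.set 13 (.lit 1)))
      (.seq (.ite (.reg 13)
      (.seq (sumP valE) (.seq (.ite (.sub (.reg 14) (.reg 10)) (.seq (.set 14 (.reg 10)) copyP) .skip)
        (incP 2 (.lit 0) (.reg 0))))
      (incP 2 (.reg 2) (.reg 0))) r)) s
      ((3 * n * n + 4 * n + 10) + ((3 * n * n + 7 * n + 12 + (5 * n + 5) + 1) + T)) Q := by
  have hWn := par_bound hP
  refine ex_seq (hBD1 a q n A W j τ g X c s hP hB hD hj hτ hI) ?_
  rintro s1 ⟨hA1, h13, hk⟩
  have hAA := hA1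
  obtain ⟨hR, hK⟩ := hA1
  have ha : ∀ k, s1.a k = s.a k := fun k => hK k (by simp)
  have hB1 : Base a q n A s1 := by
    refine ⟨?_, ?_, ?_, ?_, ?_⟩
    · rw [hR 0 (by decide)]; exact hB.r0
    · rw [hR 1 (by decide)]; exact hB.r1
    · rw [hR 2 (by decide)]; exact hB.r2
    · rw [hR 3 (by decide)]; exact hB.r3
    · rw [ha 0]; exact hB.adj
  have hD1 : Dec a q n j τ g s1 := by
    refine ⟨?_, ?_, ?_, ?_, ?_, ?_⟩
    · rw [hR 4 (by decide)]; exact hD.r4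
    · rw [hR 5 (by decide)]; exact hD.r5
    · rw [ha 4]; exact hD.a4
    · rw [ha 5]; exact hD.a5
    · rw [ha 6]; exact hD.a6
    · rw [ha 7]; exact hD.a7
  have hI1 : Inn a q n X c s1 := by
    refine ⟨hI.hX, hI.hc, ?_, ?_, ?_, ?_⟩
    · rw [ha 2]; exact hI.a2
    · rw [ha 3]; exact hI.a3
    · rw [hR 15 (by decide)]; exact hI.r15
    · rw [hR 15 (by decide)]; exact hI.r15'
  have e14 : s1.r 14 = s.r 14 := hR 14 (by decide)
  have hO1 : Out n A s1 := by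
    unfold Out
    rw [e14, ha 1]
    exact hO
  refine ex_seq ?_ hr
  refine ex_ite h13 ?_ ?_
  · intro hne
    have hPt := hk.1 hne
    refine ex_assoc (ex_seq (hBD2 a q n A W j τ g X c s1 hP hB1 hD1 hj hI1 hO1 (e14 ▸ h14)) ?_)
    rintro s2 ⟨hA2, hO2, hv2⟩
    have hAB : Agree {8, 9, 10, 13, 14} {1} s s2 :=
      agree_trans hAA hA2 (by decide) (by decide) (by decide) (by decide)
    obtain ⟨hR2, hK2⟩ := hA2
    have e0 : s2.r 0 = n := by rw [hR2 0 (by decide)]; exact hB1.r0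
    refine ex_mono (hINC W 2 (.lit 0) (.reg 0) s2 X 0 n rfl (Nat.zero_le _) ?_ (Nat.zero_le _)
      (by omega) ?_ hI.hX (by simp [Nat.mod_one])) le_rfl ?_
    · rintro s' ⟨hR3, -⟩
      have : s'.r 0 = n := (hR3 0 (by decide)).trans e0
      exact ⟨this, by change s'.r 0 ≤ W; omega⟩
    · intro i hi
      rw [hK2 2 (by decide)]
      exact hI1.a2 i hi
    · rintro s3 ⟨hA3, -, h3⟩
      have hAC : Agree {8, 9, 10, 11, 12, 13, 14} {1, 2} s s3 :=
        agree_trans hAB hA3 (by decide) (by decide) (by decide) (by decide)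
      obtain ⟨hR3, hK3⟩ := hA3
      refine ⟨hAC, ?_, ?_, ?_, ?_⟩
      · unfold Out
        rw [hR3 14 (by decide), hK3 1 (by decide)]
        exact hO2
      · rw [hR3 14 (by decide), hv2, e14]
        exact min_le_left _ _
      · intro _
        rw [hR3 14 (by decide), hv2]
        exact min_le_right _ _
      · refine ⟨X + 1, fun _ => rfl, fun h => absurd hPt h, ?_⟩
        rw [pow_zero] at h3
        rcases h3 with ⟨g1, g2, g3, -, g4, g5, g6⟩ | ⟨g1, g2, g3⟩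
        · exact Or.inl ⟨g1, g2, g3, g4, g5, g6⟩
        · exact Or.inr ⟨g1, g2, g3⟩
  · intro h0
    have h0' : s1.r 13 = 0 := h0
    have hPf : ¬ (X % 2 ^ (2 ^ a * q) ≠ 0 ∨ testF a q n A j g (bits X) ≤ τ) := by
      intro h
      exact hk.2 h h0'
    have hmod : X % 2 ^ (2 ^ a * q) = 0 := by
      by_contra hcon
      exact hPf (Or.inl hcon)
    have e2 : s1.r 2 = 2 ^ a * q := hB1.r2
    have hb := hP.hb
    refine ex_mono (hINC W 2 (.reg 2) (.reg 0) s1 X (2 ^ a * q) n e2 ?_ ?_ hb (by omega) ?_ hI.hX hmod)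
      (by omega) ?_
    · change s1.r 2 ≤ W
      omega
    · rintro s' ⟨hR3, -⟩
      have : s'.r 0 = n := (hR3 0 (by decide)).trans hB1.r0
      exact ⟨this, by change s'.r 0 ≤ W; omega⟩
    · exact hI1.a2
    · rintro s3 ⟨hA3, -, h3⟩
      have hAC : Agree {8, 9, 10, 11, 12, 13, 14} {1, 2} s s3 :=
        agree_trans hAA hA3 (by decide) (by decide) (by decide) (by decide)
      obtain ⟨hR3, hK3⟩ := hA3
      refine ⟨hAC, ?_, ?_, ?_, ?_⟩
      · unfold Out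
        rw [hR3 14 (by decide), hK3 1 (by decide)]
        exact hO1
      · rw [hR3 14 (by decide), e14]
      · intro h
        exact absurd h hPf
      · refine ⟨X + 2 ^ (2 ^ a * q), fun h => absurd h hPf, fun _ => rfl, ?_⟩
        rcases h3 with ⟨g1, g2, g3, -, g4, g5, g6⟩ | ⟨g1, g2, g3⟩
        · exact Or.inl ⟨g1, g2, g3, g4, g5, g6⟩
        · exact Or.inr ⟨g1, g2, g3⟩

theorem pf_bdy (hBD1 : T_BD1) (hBD2 : T_BD2) (hINC : T_INC) : T_BDY := by
  intro a q n A W j τ g X c s hP hB hD hj hτ hI hO h14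
  have hWn := par_bound hP
  have hb := hP.hb
  unfold bodyP
  have hT : (3 * n * n + 4 * n + 10) + ((3 * n * n + 7 * n + 12 + (5 * n + 5) + 1) +
      (1 + (1 + ((5 * (n - 2 ^ a * q + 1) + 5) + 1)))) ≤ 6 * n * n + 30 * n + 60 := by
    have : 6 * n * n = 3 * n * n + 3 * n * n := by ring
    omega
  refine ex_mono ?_ hT (fun s' h => h)
  refine mid hBD1 hBD2 hINC a q n A W j τ g X c s hP hB hD hj hτ hI hO h14 ?_
  intro s3 hM
  obtain ⟨hA3, hO3, h143, hval, X', hX1, hX2, hd⟩ := hM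
  have hA3' := hA3
  obtain ⟨hR, hK⟩ := hA3
  have e2 : s3.r 2 = 2 ^ a * q := by rw [hR 2 (by decide)]; exact hB.r2
  have e3 : s3.r 3 = n - 2 ^ a * q + 1 := by rw [hR 3 (by decide)]; exact hB.r3
  have h11 : s3.r 11 ≤ n := by
    rcases hd with ⟨-, -, -, h, -⟩ | ⟨-, h, -⟩ <;> omega
  have h12 : s3.r 12 ≤ 1 := by
    rcases hd with ⟨h, -⟩ | ⟨h, -⟩ <;> omega
  -- register 15
  refine ex_seq (Q := fun s4 => s4 = s3.setr 15 (s3.r 11 + 1 - 2 ^ a * q)) (ex_set ?_ ?_) ?_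
  · simp only [mx, ev]
    omega
  · simp only [ev, e2]
  rintro s4 rfl
  -- register 7
  refine ex_seq (Q := fun s5 => s5 = (s3.setr 15 (s3.r 11 + 1 - 2 ^ a * q)).setr 7 (s3.r 12))
    (ex_set ?_ ?_) ?_
  · simp only [mx, St.setr]
    rw [Function.update_of_ne (by decide)]
    omega
  · simp only [ev, St.setr]
    rw [Function.update_of_ne (by decide)]
  rintro s5 rfl
  set s5 := (s3.setr 15 (s3.r 11 + 1 - 2 ^ a * q)).setr 7 (s3.r 12) with hs5
  have hA5 : Agree {7, 8, 9, 10, 11, 12, 13, 14, 15} {1, 2} s s5 :=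
    agree_trans (agree_trans hA3' (agree_setr s3 15 _) (R'' := {8, 9, 10, 11, 12, 13, 14, 15})
      (K'' := {1, 2}) (by decide) (by decide) (by decide) (by decide))
      (agree_setr _ 7 _) (by decide) (by decide) (by decide) (by decide)
  have r5 : ∀ i, i ≠ 7 → i ≠ 15 → s5.r i = s3.r i := fun i h h' => by
    rw [hs5]
    simp only [St.setr]
    rw [Function.update_of_ne h, Function.update_of_ne h']
  have r57 : s5.r 7 = s3.r 12 := by
    rw [hs5]
    simp only [St.setr]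
    rw [Function.update_self]
  have r515 : s5.r 15 = s3.r 11 + 1 - 2 ^ a * q := by
    rw [hs5]
    simp only [St.setr]
    rw [Function.update_of_ne (by decide), Function.update_self]
  have a5 : ∀ k, s5.a k = s3.a k := fun k => rfl
  -- the clock
  refine ex_seq (hINC W 3 (.lit 0) (.reg 3) s5 c 0 (n - 2 ^ a * q + 1) rfl (Nat.zero_le _) ?_
    (Nat.zero_le _) (by omega) ?_ hI.hc (by simp [Nat.mod_one])) ?_
  · rintro s' ⟨hR', -⟩
    have : s'.r 3 = n - 2 ^ a * q + 1 := by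
      rw [hR' 3 (by decide), r5 3 (by decide) (by decide)]
      exact e3
    exact ⟨this, by change s'.r 3 ≤ W; omega⟩
  · intro i hi
    rw [a5, hK 3 (by decide)]
    exact hI.a3 i hi
  rintro s6 ⟨hA6, -, hd6⟩
  have hAf : Agree {7, 8, 9, 10, 11, 12, 13, 14, 15} {1, 2, 3} s
      (s6.setr 7 (s6.r 7 * s6.r 12)) :=
    agree_trans (agree_trans hA5 hA6 (R'' := {7, 8, 9, 10, 11, 12, 13, 14, 15})
      (K'' := {1, 2, 3}) (by decide) (by decide) (by decide) (by decide))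
      (agree_setr _ 7 _) (by decide) (by decide) (by decide) (by decide)
  obtain ⟨hR6, hK6⟩ := hA6
  rw [pow_zero] at hd6
  have h67 : s6.r 7 = s3.r 12 := by rw [hR6 7 (by decide), r57]
  have h612 : s6.r 12 ≤ 1 := by
    rcases hd6 with ⟨h, -⟩ | ⟨h, -⟩ <;> omega
  have hprod : s6.r 7 * s6.r 12 ≤ 1 := by
    rw [h67]
    calc s3.r 12 * s6.r 12 ≤ 1 * 1 := Nat.mul_le_mul h12 h612
      _ = 1 := rfl
  refine ex_set ?_ ?_
  · simp only [mx, ev]
    refine max_le (max_le ?_ ?_) ?_ <;> omega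
  -- the final state
  have rf : ∀ i, i ≠ 7 → (s6.setr 7 (s6.r 7 * s6.r 12)).r i = s6.r i := fun i h => by
    simp only [St.setr]
    rw [Function.update_of_ne h]
  have rf7 : (s6.setr 7 (s6.r 7 * s6.r 12)).r 7 = s6.r 7 * s6.r 12 := by
    simp only [St.setr]
    rw [Function.update_self]
  have hall : ∀ i, i ∉ ({7, 8, 9, 10, 11, 12, 13, 14, 15} : Finset ℕ) →
      (s6.setr 7 (s6.r 7 * s6.r 12)).r i = s.r i := hAf.1
  have halla : ∀ k, k ∉ ({1, 2, 3} : Finset ℕ) →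
      (s6.setr 7 (s6.r 7 * s6.r 12)).a k = s.a k := hAf.2
  have f14 : (s6.setr 7 (s6.r 7 * s6.r 12)).r 14 = s3.r 14 := by
    rw [rf 14 (by decide), hR6 14 (by decide), r5 14 (by decide) (by decide)]
  change Base a q n A (s6.setr 7 (s6.r 7 * s6.r 12)) ∧ _
  refine ⟨⟨?_, ?_, ?_, ?_, ?_⟩, ⟨?_, ?_, ?_, ?_, ?_, ?_⟩, ?_, ?_, ?_, ?_, X', ?_, ?_, ?_, ?_⟩
  · rw [hall 0 (by decide)]; exact hB.r0
  · rw [hall 1 (by decide)]; exact hB.r1
  · rw [hall 2 (by decide)]; exact hB.r2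
  · rw [hall 3 (by decide)]; exact hB.r3
  · rw [halla 0 (by decide)]; exact hB.adj
  · change (s6.setr 7 (s6.r 7 * s6.r 12)).r 4 = j
    rw [hall 4 (by decide)]; exact hD.r4
  · change (s6.setr 7 (s6.r 7 * s6.r 12)).r 5 = τ
    rw [hall 5 (by decide)]; exact hD.r5
  · change ∀ i < (a + 1) * q, (s6.setr 7 (s6.r 7 * s6.r 12)).a 4 i = bits g i
    rw [halla 4 (by decide)]; exact hD.a4
  · change ∀ i < n, (s6.setr 7 (s6.r 7 * s6.r 12)).a 5 i = _
    rw [halla 5 (by decide)]; exact hD.a5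
  · change ∀ i < n, (s6.setr 7 (s6.r 7 * s6.r 12)).a 6 i = _
    rw [halla 6 (by decide)]; exact hD.a6
  · change ∀ i < n, (s6.setr 7 (s6.r 7 * s6.r 12)).a 7 i = _
    rw [halla 7 (by decide)]; exact hD.a7
  · change Out n A (s6.setr 7 (s6.r 7 * s6.r 12))
    unfold Out
    rw [f14]
    change s3.r 14 = n * n + 1 ∨ (∀ v < n, s6.a 1 v ≤ 1) ∧ s3.r 14 = valF n A 0 (s6.a 1)
    rw [hK6 1 (by decide), a5]
    exact hO3
  · change (s6.setr 7 (s6.r 7 * s6.r 12)).r 14 ≤ s.r 14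
    rw [f14]
    exact h143
  · change (s6.setr 7 (s6.r 7 * s6.r 12)).r 6 = s.r 6
    exact hall 6 (by decide)
  · change (s6.setr 7 (s6.r 7 * s6.r 12)).r 7 ≤ 1
    rw [rf7]
    exact hprod
  · intro h
    refine ⟨hX1 h, ?_⟩
    change (s6.setr 7 (s6.r 7 * s6.r 12)).r 14 ≤ _
    rw [f14]
    exact hval h
  · exact hX2
  · change (s6.setr 7 (s6.r 7 * s6.r 12)).r 7 ≠ 0 ↔ _
    rw [rf7, h67]
    rcases hd with ⟨g1, g2, -⟩ | ⟨g1, -, g3⟩
    · rcases hd6 with ⟨k1, k2, -⟩ | ⟨k1, -, k3⟩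
      · rw [g1, k1]
        exact ⟨fun _ => ⟨g2, k2⟩, fun _ => by decide⟩
      · rw [k1]
        constructor
        · intro h
          exact absurd (Nat.mul_zero _) h
        · rintro ⟨-, h⟩
          omega
    · rw [g1]
      constructor
      · intro h
        exact absurd (Nat.zero_mul _) h
      · rintro ⟨h, -⟩
        omega
  · change (s6.setr 7 (s6.r 7 * s6.r 12)).r 7 ≠ 0 → Inn a q n X' (c + 1) (s6.setr 7 (s6.r 7 * s6.r 12))
    intro hne
    rw [rf7, h67] at hne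
    rcases hd with ⟨g1, g2, g3, g4, g5, g6⟩ | ⟨g1, -, -⟩
    · rcases hd6 with ⟨k1, k2, k3, -⟩ | ⟨k1, -, -⟩
      · refine ⟨g2, k2, ?_, k3, ?_, ?_⟩
        · intro i hi
          change s6.a 2 i = bits X' i
          rw [hK6 2 (by decide), a5]
          exact g3 i hi
        · rw [rf 15 (by decide), hR6 15 (by decide), r515]
          exact low_iff g5 g6
        · rw [rf 15 (by decide), hR6 15 (by decide), r515]
          omega
      · rw [k1] at hne
        exact absurd (Nat.mul_zero _) hne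
    · rw [g1] at hne
      exact absurd (Nat.zero_mul _) hne

end Pool.Agent.H4.MXC.BDY
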