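import Pool.Agent.H79.MC.Targets2

/-!
Module ENT: large sets have small conditional means.
-/

set_option autoImplicit false

namespace Pool.Agent.H4.MXC

open Pool.Agent.H79.MC Finset

/-- lower bound for the logarithm of a quotient -/
theorem two_mul_le_log {m : ℝ} (h0 : 0 ≤ m) (h1 : m < 1) :
    2 * m ≤ Real.log (1 + m) - Real.log (1 - m) := by
  have hm : 0 < 1 - m := by linarith
  have h2 := Real.le_log_one_add_of_nonneg (x := 2 * m / (1 - m)) (by positivity)
  have e1 : 1 + 2 * m / (1 - m) = (1 + m) / (1 - m) := by field_simp; ring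
  have e2 : 2 * (2 * m / (1 - m)) / (2 * m / (1 - m) + 2) = 2 * m := by
    have : 2 * m / (1 - m) + 2 = 2 / (1 - m) := by field_simp; ring
    rw [this]
    field_simp
  rw [e1, e2, Real.log_div (by linarith) hm.ne'] at h2
  exact h2

/-- the elementary inequality, nonnegative case -/
theorem ent_ineq_nonneg {m : ℝ} (h0 : 0 ≤ m) (h1 : m ≤ 1) :
    m ^ 2 ≤ (1 + m) * Real.log (1 + m) + (1 - m) * Real.log (1 - m) := by
  have hmono : MonotoneOn (fun x : ℝ => (1 + x) * Real.log (1 + x) + (1 - x) * Real.log (1 - x) - x ^ 2)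
      (Set.Icc 0 1) := by
    apply monotoneOn_of_deriv_nonneg (convex_Icc 0 1)
    · apply Continuous.continuousOn
      have c1 : Continuous fun x : ℝ => (1 + x) * Real.log (1 + x) :=
        Real.continuous_mul_log.comp (continuous_const.add continuous_id)
      have c2 : Continuous fun x : ℝ => (1 - x) * Real.log (1 - x) :=
        Real.continuous_mul_log.comp (continuous_const.sub continuous_id)
      exact (c1.add c2).sub (continuous_id.pow 2)
    · intro x hx
      rw [interior_Icc] at hx
      have hx1 : (1 : ℝ) + x ≠ 0 := by linarith [hx.1]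
      have hx2 : (1 : ℝ) - x ≠ 0 := by linarith [hx.2]
      have d1 : DifferentiableAt ℝ (fun x : ℝ => (1 + x) * Real.log (1 + x) +
          (1 - x) * Real.log (1 - x) - x ^ 2) x := by
        fun_prop (disch := assumption)
      exact d1.differentiableWithinAt
    · intro x hx
      rw [interior_Icc] at hx
      have hx1 : (1 : ℝ) + x ≠ 0 := by linarith [hx.1]
      have hx2 : (1 : ℝ) - x ≠ 0 := by linarith [hx.2]
      have d1 : HasDerivAt (fun x : ℝ => 1 + x) 1 x := (hasDerivAt_id x).const_add 1
      have d2 : HasDerivAt (fun x : ℝ => 1 - x) (-1) x := (hasDerivAt_id x).const_sub 1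
      have d3 : HasDerivAt (fun x : ℝ => (1 + x) * Real.log (1 + x) +
          (1 - x) * Real.log (1 - x) - x ^ 2)
          ((1 * Real.log (1 + x) + (1 + x) * (1 / (1 + x))) +
            (-1 * Real.log (1 - x) + (1 - x) * (-1 / (1 - x))) - 2 * x ^ (2 - 1)) x :=
        ((d1.mul (d1.log hx1)).add (d2.mul (d2.log hx2))).sub (by simpa using hasDerivAt_pow 2 x)
      rw [d3.deriv]
      have h2 := two_mul_le_log hx.1.le hx.2
      have e1 : (1 + x) * (1 / (1 + x)) = 1 := by field_simp
      have e2 : (1 - x) * (-1 / (1 - x)) = -1 := by field_simp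
      rw [e1, e2]
      norm_num
      linarith
  have h2 := hmono (Set.left_mem_Icc.2 zero_le_one) (Set.mem_Icc.2 ⟨h0, h1⟩) h0
  simp only [add_zero, sub_zero, Real.log_one, mul_zero] at h2
  norm_num at h2
  linarith

/-- the elementary inequality -/
theorem ent_ineq {m : ℝ} (h : |m| ≤ 1) :
    m ^ 2 ≤ (1 + m) * Real.log (1 + m) + (1 - m) * Real.log (1 - m) := by
  obtain ⟨h1, h2⟩ := abs_le.1 h
  rcases le_total 0 m with h0 | h0
  · exact ent_ineq_nonneg h0 h2
  · have h3 := ent_ineq_nonneg (m := -m) (by linarith) (by linarith)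
    have e : (1 : ℝ) - -m = 1 + m := by ring
    rw [e, neg_sq, ← sub_eq_add_neg] at h3
    linarith

theorem sb_sq (b : Bool) : sb b * sb b = 1 := by cases b <;> simp [sb]

theorem sb_mul (a b : Bool) : sb a * sb b = if b = a then 1 else -1 := by
  cases a <;> cases b <;> simp [sb]

theorem mem_fib_self {n : ℕ} {F : Finset (Fin n → Bool)} {x : Fin n → Bool} (hx : x ∈ F) (v : ℕ) :
    x ∈ fib F x v := by
  unfold fib
  simp [hx]

/-- the next fibre -/
theorem card_fib_succ {n : ℕ} (F : Finset (Fin n → Bool)) (x : Fin n → Bool) (hx : x ∈ F)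
    (v : Fin n) : ((fib F x (v + 1)).card : ℝ) =
      (fib F x v).card * (1 + sb (x v) * cmean F x v) / 2 := by
  classical
  have hN : ((fib F x v).card : ℝ) ≠ 0 := by
    have : (fib F x v).Nonempty := ⟨x, mem_fib_self hx v⟩
    exact_mod_cast this.card_pos.ne'
  have h1 : fib F x (v + 1) = (fib F x v).filter fun y => y v = x v := by
    ext y
    unfold fib
    simp only [mem_filter]
    constructor
    · rintro ⟨h1, h2⟩
      exact ⟨⟨h1, fun i hi => h2 i (by omega)⟩, h2 v (by omega)⟩
    · rintro ⟨⟨h1, h2⟩, h3⟩
      refine ⟨h1, fun i hi => ?_⟩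
      rcases Nat.lt_succ_iff_lt_or_eq.1 hi with h | h
      · exact h2 i h
      · have : i = v := Fin.ext h
        rw [this]
        exact h3
  have h2 : sb (x v) * ∑ y ∈ fib F x v, sb (y v) =
      2 * ((fib F x (v + 1)).card : ℝ) - (fib F x v).card := by
    rw [mul_sum, h1, card_filter, Nat.cast_sum]
    have : ((fib F x v).card : ℝ) = ∑ y ∈ fib F x v, 1 := by simp
    rw [this, mul_sum, ← sum_sub_distrib]
    refine sum_congr rfl fun y _ => ?_
    rw [sb_mul]
    split_ifs <;> norm_num
  unfold cmean
  rw [mul_div_assoc', h2]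
  field_simp
  ring

theorem pf_ent (hMAR : T_MAR) : T_ENT := by
  classical
  intro n F c hF hc
  have hcard : (0 : ℝ) < F.card := by exact_mod_cast hF.card_pos
  -- the logarithm of the number of elements of a fibre
  have hpos : ∀ x ∈ F, ∀ v : ℕ, (0 : ℝ) < (fib F x v).card := fun x hx v => by
    have : (fib F x v).Nonempty := ⟨x, mem_fib_self hx v⟩
    exact_mod_cast this.card_pos
  have h0 : ∀ x : Fin n → Bool, fib F x 0 = F := fun x => by
    unfold fib
    simp
  have hn : ∀ x ∈ F, fib F x n = {x} := fun x hx => by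
    ext y
    unfold fib
    simp only [mem_filter, mem_singleton]
    constructor
    · rintro ⟨-, h⟩
      funext i
      exact h i i.2
    · rintro rfl
      exact ⟨hx, fun _ _ => rfl⟩
  have hstep : ∀ x ∈ F, ∀ v : Fin n, Real.log ((fib F x v).card : ℝ) -
      Real.log ((fib F x (v + 1)).card : ℝ) =
      Real.log 2 - ((Real.log (1 + cmean F x v) + Real.log (1 - cmean F x v)) / 2 +
        sb (x v) * ((Real.log (1 + cmean F x v) - Real.log (1 - cmean F x v)) / 2)) := by
    intro x hx v
    have h1 := card_fib_succ F x hx v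
    have h2 := hpos x hx v
    have h3 := hpos x hx (v + 1)
    have h4 : 0 < 1 + sb (x v) * cmean F x v := by
      by_contra hcon
      push Not at hcon
      rw [h1] at h3
      have : ((fib F x v).card : ℝ) * (1 + sb (x v) * cmean F x v) / 2 ≤ 0 := by
        have := mul_nonpos_of_nonneg_of_nonpos h2.le hcon
        linarith
      linarith
    rw [h1, Real.log_div (mul_pos h2 h4).ne' two_ne_zero, Real.log_mul h2.ne' h4.ne']
    have h5 : Real.log (1 + sb (x v) * cmean F x v) =
        (Real.log (1 + cmean F x v) + Real.log (1 - cmean F x v)) / 2 +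
        sb (x v) * ((Real.log (1 + cmean F x v) - Real.log (1 - cmean F x v)) / 2) := by
      cases x v
      · simp only [sb, Bool.false_eq_true, if_false]
        rw [neg_one_mul, ← sub_eq_add_neg]
        ring
      · simp only [sb, if_true]
        rw [one_mul]
        ring
    rw [h5]
    ring
  have htel : ∀ x ∈ F, Real.log F.card = ∑ v : Fin n, (Real.log 2 -
      ((Real.log (1 + cmean F x v) + Real.log (1 - cmean F x v)) / 2 +
        sb (x v) * ((Real.log (1 + cmean F x v) - Real.log (1 - cmean F x v)) / 2))) := by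
    intro x hx
    rw [← sum_congr rfl fun v _ => hstep x hx v]
    have h1 := Finset.sum_range_sub' (fun v => Real.log ((fib F x v).card : ℝ)) n
    rw [h0, hn x hx, card_singleton, Nat.cast_one, Real.log_one, sub_zero] at h1
    rw [← h1]
    exact Finset.sum_range (fun v => Real.log ((fib F x v).card : ℝ) -
      Real.log ((fib F x (v + 1)).card : ℝ))
  -- martingale step
  have hmart : ∀ v : Fin n, ∑ x ∈ F, sb (x v) *
      ((Real.log (1 + cmean F x v) - Real.log (1 - cmean F x v)) / 2) =
      ∑ x ∈ F, cmean F x v * ((Real.log (1 + cmean F x v) - Real.log (1 - cmean F x v)) / 2) := by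
    intro v
    have h1 := (hMAR n F v fun x =>
      (Real.log (1 + cmean F x v) - Real.log (1 - cmean F x v)) / 2).2 (by
        intro x y hxy
        have h2 : fib F x v = fib F y v := by
          ext z
          unfold fib
          simp only [mem_filter]
          constructor
          · rintro ⟨h1, h2⟩
            exact ⟨h1, fun i hi => (h2 i hi).trans (hxy i hi)⟩
          · rintro ⟨h1, h2⟩
            exact ⟨h1, fun i hi => (h2 i hi).trans (hxy i hi).symm⟩
        have h3 : cmean F x v = cmean F y v := by
          unfold cmean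
          rw [h2]
        simp only [h3])
    rw [← sub_eq_zero, ← sum_sub_distrib, ← h1]
    refine sum_congr rfl fun x _ => ?_
    ring
  have hmain : (F.card : ℝ) * Real.log F.card ≤ F.card * (n * Real.log 2) -
      (∑ x ∈ F, ∑ v, cmean F x v ^ 2) / 2 := by
    have e1 : (F.card : ℝ) * Real.log F.card = ∑ x ∈ F, Real.log F.card := by
      rw [sum_const, nsmul_eq_mul]
    rw [e1, sum_congr rfl htel]
    simp only [sum_sub_distrib, sum_add_distrib]
    rw [sum_const, sum_const, card_univ, Fintype.card_fin, nsmul_eq_mul, nsmul_eq_mul]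
    have e2 : ∑ x ∈ F, ∑ v : Fin n, sb (x v) *
        ((Real.log (1 + cmean F x v) - Real.log (1 - cmean F x v)) / 2) =
        ∑ x ∈ F, ∑ v : Fin n, cmean F x v *
          ((Real.log (1 + cmean F x v) - Real.log (1 - cmean F x v)) / 2) := by
      rw [sum_comm, sum_congr rfl fun v _ => hmart v, sum_comm]
    rw [e2, ← sum_add_distrib, sum_div]
    refine sub_le_sub_left (sum_le_sum fun x hx => ?_) _
    rw [sum_div, ← sum_add_distrib]
    refine sum_le_sum fun v _ => ?_
    have h1 := ent_ineq ((hMAR n F v fun _ => 0).1 x hx)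
    linarith
  have hlog : (1 - c) * n * Real.log 2 ≤ Real.log F.card := by
    have h1 := Real.log_le_log (by positivity) hc
    rwa [Real.log_rpow two_pos] at h1
  have h2 : (F.card : ℝ) * ((1 - c) * n * Real.log 2) ≤ F.card * Real.log F.card :=
    mul_le_mul_of_nonneg_left hlog hcard.le
  nlinarith

end Pool.Agent.H4.MXC
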