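import Pool.Agent.H79.MC.Targets2

/-!
Module ORT: comparison of the form at a random element and at its conditional means.
-/

set_option autoImplicit false

namespace Pool.Agent.H4.MXC.ORT

open Pool.Agent.H79.MC Finset

open Classical in
/-- ordered adjacency -/
noncomputable def ao {n : ℕ} (G : SimpleGraph (Fin n)) (u v : Fin n) : ℝ :=
  if G.Adj u v ∧ u < v then 1 else 0

theorem phi_eq {n : ℕ} (G : SimpleGraph (Fin n)) (z : Fin n → ℝ) :
    phi G z = 2 * ∑ v, ∑ u, ao G u v * (z u * z v) := by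
  classical
  have h1 : phi G z = ∑ u, ∑ v, (ao G u v * (z u * z v) + ao G v u * (z v * z u)) := by
    unfold phi
    refine sum_congr rfl fun u _ => sum_congr rfl fun v _ => ?_
    unfold ao
    by_cases h : G.Adj u v
    · have hne : u ≠ v := h.ne
      rcases lt_or_gt_of_ne hne with h2 | h2
      · simp [h, h2, h.symm, not_lt.2 h2.le]
      · simp [h, h2, h.symm, not_lt.2 h2.le]
        ring
    · have h' : ¬ G.Adj v u := fun e => h e.symm
      simp [h, h']
  rw [h1]
  simp only [sum_add_distrib]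
  rw [sum_comm, two_mul]

theorem sum_ao_le {n : ℕ} (G : SimpleGraph (Fin n)) :
    ∑ v, ∑ u, ao G u v ≤ (edges G : ℝ) := by
  classical
  have h1 : ∑ v, ∑ u, ao G u v =
      (((univ : Finset (Fin n × Fin n)).filter fun p => G.Adj p.2 p.1 ∧ p.2 < p.1).card : ℝ) := by
    rw [← Fintype.sum_prod_type' (f := fun v u => ao G u v), card_filter]
    push_cast
    refine sum_congr rfl fun p _ => ?_
    unfold ao
    congr
  rw [h1]
  unfold edges
  have hinj : Set.InjOn (fun p : Fin n × Fin n => s(p.2, p.1))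
      ((univ : Finset (Fin n × Fin n)).filter fun p => G.Adj p.2 p.1 ∧ p.2 < p.1) := by
    rintro ⟨a, b⟩ h ⟨a', b'⟩ h' e
    simp only [coe_filter, mem_univ, true_and, Set.mem_setOf_eq] at h h'
    rcases Sym2.eq_iff.1 e with ⟨e1, e2⟩ | ⟨e1, e2⟩
    · simp only at e1 e2
      rw [e1, e2]
    · exfalso
      simp only at e1 e2
      rw [e1, e2] at h
      exact absurd h.2 (not_lt.2 h'.2.le)
  have h2 := Set.ncard_image_of_injOn hinj
  rw [Set.ncard_coe_finset] at h2
  rw [← h2]
  have h3 : (fun p : Fin n × Fin n => s(p.2, p.1)) ''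
      ((univ : Finset (Fin n × Fin n)).filter fun p => G.Adj p.2 p.1 ∧ p.2 < p.1) ⊆ G.edgeSet := by
    rintro _ ⟨p, hp, rfl⟩
    simp only [coe_filter, mem_univ, true_and, Set.mem_setOf_eq] at hp
    exact hp.1
  exact_mod_cast Set.ncard_le_ncard h3 (Set.toFinite _)

theorem cmean_congr {n : ℕ} {F : Finset (Fin n → Bool)} {x y : Fin n → Bool} {v : Fin n}
    (hxy : ∀ i, i < v → x i = y i) : cmean F x v = cmean F y v := by
  have h2 : fib F x v = fib F y v := by
    ext z
    unfold fib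
    simp only [mem_filter]
    constructor
    · rintro ⟨h1, h2⟩
      exact ⟨h1, fun i hi => (h2 i hi).trans (hxy i hi)⟩
    · rintro ⟨h1, h2⟩
      exact ⟨h1, fun i hi => (h2 i hi).trans (hxy i hi).symm⟩
  unfold cmean
  rw [h2]

/-- the difference -/
noncomputable def xi {n : ℕ} (F : Finset (Fin n → Bool)) (x : Fin n → Bool) (v : Fin n) : ℝ :=
  sb (x v) - cmean F x v

theorem xi_cross (hMAR : T_MAR) {n : ℕ} (F : Finset (Fin n → Bool)) {u v : Fin n} (h : u ≠ v) :
    ∑ x ∈ F, xi F x u * xi F x v = 0 := by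
  rcases lt_or_gt_of_ne h with h | h
  · refine (hMAR n F v fun x => xi F x u).2 fun x y hxy => ?_
    simp only [xi]
    rw [hxy u h, cmean_congr fun i hi => hxy i (hi.trans h)]
  · rw [sum_congr rfl fun x _ => mul_comm (xi F x u) (xi F x v)]
    refine (hMAR n F u fun x => xi F x v).2 fun x y hxy => ?_
    simp only [xi]
    rw [hxy v h, cmean_congr fun i hi => hxy i (hi.trans h)]

theorem xi_diag (hMAR : T_MAR) {n : ℕ} (F : Finset (Fin n → Bool)) (u : Fin n) :
    ∑ x ∈ F, xi F x u * xi F x u ≤ F.card := by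
  have h1 := (hMAR n F u fun x => cmean F x u).2 fun x y hxy => cmean_congr hxy
  have h2 : ∑ x ∈ F, xi F x u * xi F x u = ∑ x ∈ F, (1 - cmean F x u ^ 2) -
      2 * ∑ x ∈ F, cmean F x u * (sb (x u) - cmean F x u) := by
    rw [mul_sum, ← sum_sub_distrib]
    refine sum_congr rfl fun x _ => ?_
    have : sb (x u) * sb (x u) = 1 := by cases x u <;> simp [sb]
    unfold xi
    linear_combination this
  rw [h2, h1, mul_zero, sub_zero]
  calc ∑ x ∈ F, (1 - cmean F x u ^ 2) ≤ ∑ x ∈ F, (1 : ℝ) :=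
        sum_le_sum fun x _ => by nlinarith [sq_nonneg (cmean F x u)]
    _ = F.card := by simp

/-- the weight of the earlier neighbours -/
noncomputable def Wv {n : ℕ} (G : SimpleGraph (Fin n)) (F : Finset (Fin n → Bool))
    (x : Fin n → Bool) (v : Fin n) : ℝ := ∑ u, ao G u v * xi F x u

theorem ao_sq {n : ℕ} (G : SimpleGraph (Fin n)) (u v : Fin n) : ao G u v * ao G u v = ao G u v := by
  unfold ao
  split_ifs <;> norm_num

theorem ao_nonneg {n : ℕ} (G : SimpleGraph (Fin n)) (u v : Fin n) : 0 ≤ ao G u v := by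
  unfold ao
  split_ifs <;> norm_num

theorem sum_W (hMAR : T_MAR) {n : ℕ} (G : SimpleGraph (Fin n)) (F : Finset (Fin n → Bool))
    (v : Fin n) : ∑ x ∈ F, Wv G F x v ^ 2 ≤ F.card * ∑ u, ao G u v := by
  classical
  have h1 : ∑ x ∈ F, Wv G F x v ^ 2 = ∑ u, ∑ u', ao G u v * ao G u' v *
      ∑ x ∈ F, xi F x u * xi F x u' := by
    have e : ∀ x, Wv G F x v ^ 2 = ∑ u, ∑ u', ao G u v * ao G u' v * (xi F x u * xi F x u') := by
      intro x
      unfold Wv
      rw [sq, sum_mul_sum]
      refine sum_congr rfl fun u _ => sum_congr rfl fun u' _ => ?_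
      ring
    rw [sum_congr rfl fun x _ => e x, sum_comm]
    refine sum_congr rfl fun u _ => ?_
    rw [sum_comm]
    refine sum_congr rfl fun u' _ => ?_
    rw [mul_sum]
  rw [h1, mul_sum]
  refine sum_le_sum fun u _ => ?_
  rw [sum_eq_single u]
  · rw [ao_sq, mul_comm (F.card : ℝ)]
    exact mul_le_mul_of_nonneg_left (xi_diag hMAR F u) (ao_nonneg G u v)
  · intro u' _ hne
    rw [xi_cross hMAR F (Ne.symm hne), mul_zero]
  · intro h
    exact absurd (mem_univ u) h

theorem pf_ort (hMAR : T_MAR) : T_ORT := by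
  classical
  intro n G F
  -- the difference of the forms
  have hdiff : ∑ x ∈ F, phi G (fun v => sb (x v)) - ∑ x ∈ F, phi G (cmean F x) =
      2 * ∑ x ∈ F, ∑ v, cmean F x v * Wv G F x v := by
    have e1 : ∑ x ∈ F, phi G (fun v => sb (x v)) =
        2 * ∑ v, ∑ u, ao G u v * ∑ x ∈ F, sb (x u) * sb (x v) := by
      simp only [phi_eq]
      rw [← mul_sum, sum_comm]
      congr 1
      refine sum_congr rfl fun v _ => ?_
      rw [sum_comm]
      refine sum_congr rfl fun u _ => ?_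
      rw [mul_sum]
    have e2 : ∑ x ∈ F, phi G (cmean F x) =
        2 * ∑ v, ∑ u, ao G u v * ∑ x ∈ F, cmean F x u * cmean F x v := by
      simp only [phi_eq]
      rw [← mul_sum, sum_comm]
      congr 1
      refine sum_congr rfl fun v _ => ?_
      rw [sum_comm]
      refine sum_congr rfl fun u _ => ?_
      rw [mul_sum]
    rw [e1, e2, ← mul_sub, ← sum_sub_distrib]
    congr 1
    rw [sum_comm (s := F)]
    refine sum_congr rfl fun v _ => ?_
    rw [← sum_sub_distrib]
    have e3 : ∑ x ∈ F, cmean F x v * Wv G F x v =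
        ∑ u, ao G u v * ∑ x ∈ F, cmean F x v * xi F x u := by
      unfold Wv
      simp only [mul_sum]
      rw [sum_comm]
      refine sum_congr rfl fun u _ => sum_congr rfl fun x _ => ?_
      ring
    rw [e3]
    refine sum_congr rfl fun u _ => ?_
    rw [← mul_sub]
    by_cases huv : u < v
    · congr 1
      have h1 := (hMAR n F v fun x => sb (x u)).2 fun x y hxy => by
        simp only [hxy u huv]
      rw [← sum_sub_distrib, ← sub_eq_zero, ← h1, ← sum_sub_distrib]
      refine sum_congr rfl fun x _ => ?_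
      unfold xi
      ring
    · have : ao G u v = 0 := by
        unfold ao
        rw [if_neg]
        rintro ⟨-, h⟩
        exact huv h
      rw [this, zero_mul, zero_mul]
  -- Cauchy-Schwarz
  have hCS : -(∑ x ∈ F, ∑ v, cmean F x v * Wv G F x v) ≤
      Real.sqrt (∑ x ∈ F, ∑ v, cmean F x v ^ 2) * Real.sqrt (∑ x ∈ F, ∑ v, Wv G F x v ^ 2) := by
    have h1 : (∑ x ∈ F, ∑ v, cmean F x v * Wv G F x v) =
        ∑ p ∈ F ×ˢ (univ : Finset (Fin n)), cmean F p.1 p.2 * Wv G F p.1 p.2 := by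
      rw [sum_product]
    have h2 : (∑ x ∈ F, ∑ v, cmean F x v ^ 2) =
        ∑ p ∈ F ×ˢ (univ : Finset (Fin n)), cmean F p.1 p.2 ^ 2 := by
      rw [sum_product]
    have h3 : (∑ x ∈ F, ∑ v, Wv G F x v ^ 2) =
        ∑ p ∈ F ×ˢ (univ : Finset (Fin n)), Wv G F p.1 p.2 ^ 2 := by
      rw [sum_product]
    rw [h1, h2, h3]
    have h4 := Real.sum_mul_le_sqrt_mul_sqrt (F ×ˢ (univ : Finset (Fin n)))
      (fun p => -cmean F p.1 p.2) (fun p => Wv G F p.1 p.2)
    simp only [neg_mul, sum_neg_distrib, neg_sq] at h4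
    exact h4
  have hW : ∑ x ∈ F, ∑ v, Wv G F x v ^ 2 ≤ edges G * F.card := by
    rw [sum_comm]
    calc ∑ v, ∑ x ∈ F, Wv G F x v ^ 2 ≤ ∑ v, (F.card : ℝ) * ∑ u, ao G u v :=
          sum_le_sum fun v _ => sum_W hMAR G F v
      _ = F.card * ∑ v, ∑ u, ao G u v := by rw [mul_sum]
      _ ≤ F.card * edges G := mul_le_mul_of_nonneg_left (sum_ao_le G) (Nat.cast_nonneg _)
      _ = edges G * F.card := mul_comm _ _
  have h5 : Real.sqrt (∑ x ∈ F, ∑ v, Wv G F x v ^ 2) ≤ Real.sqrt (edges G * F.card) :=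
    Real.sqrt_le_sqrt hW
  have h6 : Real.sqrt (∑ x ∈ F, ∑ v, cmean F x v ^ 2) * Real.sqrt (∑ x ∈ F, ∑ v, Wv G F x v ^ 2) ≤
      Real.sqrt (∑ x ∈ F, ∑ v, cmean F x v ^ 2) * Real.sqrt (edges G * F.card) :=
    mul_le_mul_of_nonneg_left h5 (Real.sqrt_nonneg _)
  have h7 : ∑ x ∈ F, phi G (cmean F x) = ∑ x ∈ F, phi G (fun v => sb (x v)) -
      2 * ∑ x ∈ F, ∑ v, cmean F x v * Wv G F x v := by linarith
  rw [h7]
  nlinarith

end Pool.Agent.H4.MXC.ORT
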