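import Pool.Agent.H4.MXC.BDY

/-!
Module PRG: the program.
-/

set_option autoImplicit false

namespace Pool.Agent.H4.MXC.PRG

open Pool.Agent.H79.MC Pool.Agent.H4.MXC.BDY

/-- numbers with given binary digits -/
theorem exists_bits (n : ℕ) : ∀ x : ℕ → ℕ, (∀ i < n, x i ≤ 1) →
    ∃ X < 2 ^ n, ∀ i < n, bits X i = x i := by
  induction n with
  | zero => exact fun x _ => ⟨0, by norm_num, fun i hi => absurd hi (Nat.not_lt_zero i)⟩
  | succ n ih =>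
    intro x hx
    obtain ⟨X, hX, hb⟩ := ih (fun i => x (i + 1)) fun i hi => hx (i + 1) (by omega)
    have h0 := hx 0 (by omega)
    refine ⟨x 0 + 2 * X, by rw [pow_succ]; omega, fun i hi => ?_⟩
    rcases i with _ | i
    · unfold bits
      rw [pow_zero, Nat.div_one]
      omega
    · rw [← hb i (by omega)]
      unfold bits
      rw [pow_succ, mul_comm (2 ^ i) 2, ← Nat.div_div_eq_div_mul]
      congr 2
      omega

theorem valF_le (n : ℕ) (A : ℕ → ℕ → ℕ) (j : ℕ) (x : ℕ → ℕ) (hA : ∀ u v, A u v ≤ 1) :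
    valF n A j x ≤ n * n := by
  unfold valF
  calc _ ≤ ∑ _i ∈ Finset.range n, ∑ _i' ∈ Finset.range n, 1 := by
        refine Finset.sum_le_sum fun i _ => Finset.sum_le_sum fun i' _ => ?_
        have h1 := hA ((i + j) % n) ((i' + j) % n)
        split_ifs <;> omega
    _ = n * n := by simp

theorem base_setr {a q n : ℕ} {A : ℕ → ℕ → ℕ} {s : St} (h : Base a q n A s) (i v : ℕ)
    (hi : 4 ≤ i) : Base a q n A (s.setr i v) := by
  refine ⟨?_, ?_, ?_, ?_, h.adj⟩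
  · simp only [St.setr]
    rw [Function.update_of_ne (by omega)]
    exact h.r0
  · simp only [St.setr]
    rw [Function.update_of_ne (by omega)]
    exact h.r1
  · simp only [St.setr]
    rw [Function.update_of_ne (by omega)]
    exact h.r2
  · simp only [St.setr]
    rw [Function.update_of_ne (by omega)]
    exact h.r3

theorem setr_self (s : St) (i v : ℕ) : (s.setr i v).r i = v := by
  simp only [St.setr]
  rw [Function.update_self]

theorem setr_ne (s : St) {i k : ℕ} (v : ℕ) (h : k ≠ i) : (s.setr i v).r k = s.r k := by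
  simp only [St.setr]
  rw [Function.update_of_ne h]

theorem out_setr {n : ℕ} {A : ℕ → ℕ → ℕ} {s : St} (h : Out n A s) (i v : ℕ)
    (hi : 14 ≠ i) : Out n A (s.setr i v) := by
  unfold Out
  rw [setr_ne s v hi]
  exact h

/-- all cuts found by the offset `j` and the threshold `τ` are at least `v` -/
def Compl (a q n : ℕ) (A : ℕ → ℕ → ℕ) (j τ v : ℕ) : Prop :=
  ∀ g < 2 ^ ((a + 1) * q), cost a q n A j g τ ≤ 2 ^ (n - 2 ^ a * q + 1) →
    ∀ X < 2 ^ n, Kept a q n A j g τ (X / 2 ^ (2 ^ a * q)) → v ≤ valF n A j (bits X)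

theorem Compl.mono {a q n : ℕ} {A : ℕ → ℕ → ℕ} {j τ v v' : ℕ} (h : Compl a q n A j τ v)
    (hv : v' ≤ v) : Compl a q n A j τ v' :=
  fun g hg hc X hX hk => hv.trans (h g hg hc X hX hk)

/-- time of the loop over the guesses -/
def Tg (a q n : ℕ) : ℕ := 2 ^ ((a + 1) * q) * (2 ^ (n - 2 ^ a * q + 1) * (6 * n * n + 30 * n + 61) +
  (5 * (a + 1) + 30) * (n + 2)) + (5 * (a + 1) + 30) * (n + 2)

/-- the loop over the thresholds -/
theorem inner (hGSL : T_GSL) (hFR : T_FR) (a q n : ℕ) (A : ℕ → ℕ → ℕ) (W j : ℕ) (s : St)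
    (hP : Par a q n A W) (hj : j < n) (hB : Base a q n A s) (h4 : s.r 4 = j) (hO : Out n A s)
    (h14 : s.r 14 ≤ n * n + 1)
    (hc : ∀ j' < j, ∀ τ ≤ 2 * 2 ^ a * (n * n), Compl a q n A j' τ (s.r 14))
    (hN : ∀ s' : St, s'.r 0 = n →
      mx s' (.add (.mul (.lit (2 * 2 ^ a)) (.mul (.reg 0) (.reg 0))) (.lit 1)) ≤ W) :
    Ex W (forP 5 (.add (.mul (.lit (2 * 2 ^ a)) (.mul (.reg 0) (.reg 0))) (.lit 1)) (guessP a)) s
      ((2 * 2 ^ a * (n * n) + 1) * (Tg a q n + 2) + 2) fun s' =>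
      Base a q n A s' ∧ s'.r 4 = j ∧ Out n A s' ∧ s'.r 14 ≤ n * n + 1 ∧
      ∀ j' < j + 1, ∀ τ ≤ 2 * 2 ^ a * (n * n), Compl a q n A j' τ (s'.r 14) := by
  refine ex_mono (hFR W 5 _ (guessP a) s (Tg a q n) (2 * 2 ^ a * (n * n) + 1)
    (fun k s' => s'.r 5 = k ∧ Base a q n A s' ∧ s'.r 4 = j ∧ Out n A s' ∧ s'.r 14 ≤ n * n + 1 ∧
      (∀ j' < j, ∀ τ ≤ 2 * 2 ^ a * (n * n), Compl a q n A j' τ (s'.r 14)) ∧
      ∀ τ < k, Compl a q n A j τ (s'.r 14)) ?_ ?_ ?_) le_rfl ?_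
  · refine ⟨setr_self s 5 0, base_setr hB 5 0 (by norm_num), ?_, out_setr hO 5 0 (by norm_num), ?_,
      ?_, fun τ hτ => absurd hτ (Nat.not_lt_zero τ)⟩
    · rw [setr_ne s 0 (by norm_num)]; exact h4
    · rw [setr_ne s 0 (by norm_num)]; exact h14
    · rw [setr_ne s 0 (by norm_num)]; exact hc
  · rintro k s' hk ⟨g1, g2, -⟩
    refine ⟨g1, ?_, hN s' g2.r0⟩
    simp only [ev, g2.r0]
  · rintro k s' hk ⟨g1, g2, g3, g4, g5, g6, g7⟩
    refine ex_mono (hGSL a q n A W j k s' hP g2 g3 g1 hj (by omega) g4 g5) le_rfl ?_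
    rintro s'' ⟨k1, k2, k3, k4, k5, k6⟩
    refine ⟨k3, setr_self _ _ _, base_setr k1 5 _ (by norm_num), ?_, out_setr k4 5 _ (by norm_num),
      ?_, ?_, ?_⟩
    · rw [setr_ne _ _ (by norm_num)]; exact k2
    · rw [setr_ne _ _ (by norm_num)]; exact k5.trans g5
    · rw [setr_ne _ _ (by norm_num)]
      exact fun j' hj' τ hτ => (g6 j' hj' τ hτ).mono k5
    · rw [setr_ne _ _ (by norm_num)]
      intro τ hτ
      rcases Nat.lt_succ_iff_lt_or_eq.1 hτ with h | h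
      · exact (g7 τ h).mono k5
      · rw [h]
        exact k6
  · rintro s' ⟨-, g2, g3, g4, g5, g6, g7⟩
    refine ⟨g2, g3, g4, g5, fun j' hj' τ hτ => ?_⟩
    rcases Nat.lt_succ_iff_lt_or_eq.1 hj' with h | h
    · exact g6 j' h τ hτ
    · rw [h]
      exact g7 τ (by omega)

/-- the time bound -/
theorem time_le (a q n : ℕ) :
    4 + (n * ((2 * 2 ^ a * (n * n) + 1) * (Tg a q n + 2) + 2 + 2) + 2) ≤
      ((2 * 2 ^ a + 1) * (63 + 4 * (5 * (a + 1) + 30)) + 10) * (n + 1) ^ 5 *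
        2 ^ (n - 2 ^ a * q + 1 + (a + 1) * q) := by
  obtain ⟨E, hE⟩ : ∃ E, E = 2 ^ (n - 2 ^ a * q + 1 + (a + 1) * q) := ⟨_, rfl⟩
  obtain ⟨K, hK⟩ : ∃ K, K = 5 * (a + 1) + 30 := ⟨_, rfl⟩
  obtain ⟨c, hc⟩ : ∃ c, c = 2 * 2 ^ a := ⟨_, rfl⟩
  have hE1 : 1 ≤ E := by rw [hE]; exact Nat.one_le_two_pow
  have hG1 : 1 ≤ 2 ^ (n - 2 ^ a * q + 1) := Nat.one_le_two_pow
  have hG2 : 2 ^ ((a + 1) * q) ≤ E := by
    rw [hE, pow_add]
    exact Nat.le_mul_of_pos_left _ (by positivity)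
  have hT : Tg a q n + 2 ≤ E * ((63 + 4 * K) * (n + 1) ^ 2) := by
    have h1 : Tg a q n = E * (6 * n * n + 30 * n + 61) + 2 ^ ((a + 1) * q) * (K * (n + 2)) +
        K * (n + 2) := by
      unfold Tg
      rw [← hK, hE, pow_add]
      ring
    have h2 : 2 ^ ((a + 1) * q) * (K * (n + 2)) ≤ E * (K * (n + 2)) := Nat.mul_le_mul_right _ hG2
    have h3 : K * (n + 2) ≤ E * (K * (n + 2)) := Nat.le_mul_of_pos_left _ hE1
    have h4 : 2 ≤ E * 2 := by omega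
    calc Tg a q n + 2 ≤ E * (6 * n * n + 30 * n + 61) + E * (K * (n + 2)) + E * (K * (n + 2)) +
          E * 2 := by rw [h1]; omega
      _ = E * ((6 * n * n + 30 * n + 61) + 2 * (K * (n + 2)) + 2) := by ring
      _ ≤ E * ((63 + 4 * K) * (n + 1) ^ 2) := by
          refine Nat.mul_le_mul_left _ ?_
          nlinarith [Nat.zero_le (K * n), Nat.zero_le (K * n * n), Nat.zero_le n,
            Nat.zero_le (n * n)]
  have hM : c * (n * n) + 1 ≤ (c + 1) * (n + 1) ^ 2 := by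
    nlinarith [Nat.zero_le (c * n), Nat.zero_le n, Nat.zero_le (n * n), Nat.zero_le c]
  have h5 : (c * (n * n) + 1) * (Tg a q n + 2) ≤
      (c + 1) * (n + 1) ^ 2 * (E * ((63 + 4 * K) * (n + 1) ^ 2)) := Nat.mul_le_mul hM hT
  rw [← hE, ← hK, ← hc]
  have h6 : n * ((c * (n * n) + 1) * (Tg a q n + 2) + 2 + 2) ≤
      (n + 1) * ((c + 1) * (n + 1) ^ 2 * (E * ((63 + 4 * K) * (n + 1) ^ 2)) + 4) :=
    Nat.mul_le_mul (by omega) (by omega)
  have h7 : (n + 1) * ((c + 1) * (n + 1) ^ 2 * (E * ((63 + 4 * K) * (n + 1) ^ 2)) + 4) + 6 =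
      (c + 1) * (63 + 4 * K) * (n + 1) ^ 5 * E + (4 * (n + 1) + 6) := by ring
  have h8 : 4 * (n + 1) + 6 ≤ 10 * (n + 1) ^ 5 * E := by
    have h9 : n + 1 ≤ (n + 1) ^ 5 := Nat.le_self_pow (by norm_num) _
    have h10 : (n + 1) ^ 5 ≤ (n + 1) ^ 5 * E := Nat.le_mul_of_pos_right _ hE1
    have h11 : 10 * (n + 1) ^ 5 * E = 10 * ((n + 1) ^ 5 * E) := by ring
    rw [h11]
    omega
  have h12 : ((c + 1) * (63 + 4 * K) + 10) * (n + 1) ^ 5 * E =
      (c + 1) * (63 + 4 * K) * (n + 1) ^ 5 * E + 10 * (n + 1) ^ 5 * E := by ring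
  rw [h12]
  omega

theorem pf_prg (hGSL : T_GSL) (hFR : T_FR) (hROT : T_ROT) : T_PRG := by
  intro Γ a hΓ
  obtain ⟨C0, hC0⟩ : ∃ C0, C0 = (2 * 2 ^ a + 1) * (63 + 4 * (5 * (a + 1) + 30)) + 10 := ⟨_, rfl⟩
  obtain ⟨C, hC⟩ : ∃ C, C = C0 + Γ + 5 + (2 * 2 ^ a + a + 4) := ⟨_, rfl⟩
  refine ⟨C, ?_⟩
  intro n A s hA h0 hadj
  obtain ⟨W, hW⟩ : ∃ W, W = C * (n + 1) ^ C := ⟨_, rfl⟩
  have hpw : ∀ k ≤ C, ∀ c ≤ C, c * (n + 1) ^ k ≤ W := by
    intro k hk c hc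
    rw [hW]
    exact Nat.mul_le_mul hc (Nat.pow_le_pow_right (by omega) hk)
  have hΓ0 : 0 < Γ := lt_of_lt_of_le (by positivity) hΓ
  have hb : 2 ^ a * (n / Γ) ≤ n :=
    (Nat.mul_le_mul_right _ hΓ).trans (Nat.mul_div_le n Γ)
  have w1 : Γ ≤ W := by
    have := hpw 0 (by omega) Γ (by omega)
    simpa using this
  have w2 : (2 * 2 ^ a + a + 4) * (n + 1) * (n + 1) ≤ W := by
    have := hpw 2 (by omega) (2 * 2 ^ a + a + 4) (by omega)
    calc _ = (2 * 2 ^ a + a + 4) * (n + 1) ^ 2 := by ring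
      _ ≤ W := this
  have w3 : 2 * 2 ^ a * (n * n) + 1 ≤ W := by
    refine le_trans ?_ w2
    nlinarith [Nat.zero_le (2 ^ a * n), Nat.zero_le (a * n), Nat.zero_le (a * n * n), Nat.zero_le n,
      Nat.zero_le (n * n), Nat.zero_le (2 ^ a)]
  have w4 : n * n + 1 ≤ W := by
    refine le_trans ?_ w2
    nlinarith [Nat.zero_le (2 ^ a * n), Nat.zero_le (a * n), Nat.zero_le (a * n * n), Nat.zero_le n,
      Nat.zero_le (n * n), Nat.zero_le (2 ^ a), Nat.zero_le (2 ^ a * n * n)]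
  have w5 : n + 1 ≤ W := by
    refine le_trans ?_ w2
    nlinarith [Nat.zero_le (2 ^ a * n), Nat.zero_le (a * n), Nat.zero_le (a * n * n), Nat.zero_le n,
      Nat.zero_le (n * n), Nat.zero_le (2 ^ a), Nat.zero_le (2 ^ a * n * n)]
  have w6 : 2 * 2 ^ a ≤ W := by
    refine le_trans ?_ w2
    nlinarith [Nat.zero_le (2 ^ a * n), Nat.zero_le (a * n), Nat.zero_le (a * n * n), Nat.zero_le n,
      Nat.zero_le (n * n), Nat.zero_le (2 ^ a), Nat.zero_le (2 ^ a * n * n)]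
  have hN : ∀ s' : St, s'.r 0 = n →
      mx s' (.add (.mul (.lit (2 * 2 ^ a)) (.mul (.reg 0) (.reg 0))) (.lit 1)) ≤ W := by
    intro s' h
    simp only [mx, ev, h]
    refine max_le (max_le (max_le (max_le w6 (max_le (max_le ?_ ?_) ?_)) ?_) ?_) w3 <;> omega
  rw [← hW]
  have hT := time_le a (n / Γ) n
  rw [← hC0] at hT
  have hT' : 4 + (n * ((2 * 2 ^ a * (n * n) + 1) * (Tg a (n / Γ) n + 2) + 2 + 2) + 2) ≤
      W * 2 ^ (n - 2 ^ a * (n / Γ) + 1 + (a + 1) * (n / Γ)) :=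
    hT.trans (Nat.mul_le_mul_right _ (hpw 5 (by omega) C0 (by omega)))
  have hT'' : 1 + (1 + (1 + (1 + (n * ((2 * 2 ^ a * (n * n) + 1) * (Tg a (n / Γ) n + 2) + 2 + 2) + 2))))
      ≤ W * 2 ^ (n - 2 ^ a * (n / Γ) + 1 + (a + 1) * (n / Γ)) := by omega
  refine ex_mono ?_ hT'' (fun s' h => h)
  unfold cutP
  -- register 1
  refine ex_seq (Q := fun s' => s'.r 0 = n ∧ s'.r 1 = n / Γ ∧ s'.a = s.a) (ex_set ?_ ?_) ?_
  · simp only [mx, h0]
    refine max_le ?_ w1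
    omega
  · refine ⟨?_, ?_, rfl⟩
    · rw [setr_ne _ _ (by norm_num)]; exact h0
    · rw [setr_self]
      simp only [ev, h0]
  rintro s1 ⟨a0, a1, aa⟩
  -- register 2
  refine ex_seq (Q := fun s' => s'.r 0 = n ∧ s'.r 1 = n / Γ ∧ s'.r 2 = 2 ^ a * (n / Γ) ∧ s'.a = s.a)
    (ex_set ?_ ?_) ?_
  · simp only [mx, ev, a1]
    have h1 : n / Γ ≤ n := Nat.div_le_self _ _
    refine max_le (max_le ?_ ?_) ?_ <;> omega
  · refine ⟨?_, ?_, ?_, aa⟩
    · rw [setr_ne _ _ (by norm_num)]; exact a0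
    · rw [setr_ne _ _ (by norm_num)]; exact a1
    · rw [setr_self]
      simp only [ev, a1]
  rintro s2 ⟨b0, b1, b2, ba⟩
  -- register 3
  refine ex_seq (Q := fun s' => s'.r 0 = n ∧ s'.r 1 = n / Γ ∧ s'.r 2 = 2 ^ a * (n / Γ) ∧
    s'.r 3 = n - 2 ^ a * (n / Γ) + 1 ∧ s'.a = s.a) (ex_set ?_ ?_) ?_
  · simp only [mx, ev, b0, b2]
    refine max_le (max_le (max_le ?_ ?_) ?_) ?_ <;> omega
  · refine ⟨?_, ?_, ?_, ?_, ba⟩
    · rw [setr_ne _ _ (by norm_num)]; exact b0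
    · rw [setr_ne _ _ (by norm_num)]; exact b1
    · rw [setr_ne _ _ (by norm_num)]; exact b2
    · rw [setr_self]
      simp only [ev, b0, b2]
  rintro s3 ⟨c0, c1, c2, c3, ca⟩
  -- register 14
  refine ex_seq (Q := fun s' => Base a (n / Γ) n A s' ∧ s'.r 14 = n * n + 1) (ex_set ?_ ?_) ?_
  · simp only [mx, ev, c0]
    refine max_le (max_le (max_le (max_le ?_ ?_) ?_) ?_) ?_ <;> omega
  · refine ⟨⟨?_, ?_, ?_, ?_, ?_⟩, ?_⟩
    · rw [setr_ne _ _ (by norm_num)]; exact c0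
    · rw [setr_ne _ _ (by norm_num)]; exact c1
    · rw [setr_ne _ _ (by norm_num)]; exact c2
    · rw [setr_ne _ _ (by norm_num)]; exact c3
    · change ∀ u < n, ∀ v < n, s3.a 0 (u * n + v) = A u v
      rw [ca]
      exact hadj
    · rw [setr_self]
      simp only [ev, c0]
  rintro s4 ⟨hB4, h144⟩
  -- the loop over the offsets
  refine ex_mono (hFR W 4 (.reg 0) _ s4
    ((2 * 2 ^ a * (n * n) + 1) * (Tg a (n / Γ) n + 2) + 2) n
    (fun k s' => s'.r 4 = k ∧ Base a (n / Γ) n A s' ∧ Out n A s' ∧ s'.r 14 ≤ n * n + 1 ∧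
      ∀ j' < k, ∀ τ ≤ 2 * 2 ^ a * (n * n), Compl a (n / Γ) n A j' τ (s'.r 14)) ?_ ?_ ?_) le_rfl ?_
  · refine ⟨setr_self _ _ _, base_setr hB4 4 0 le_rfl, ?_, ?_, fun j' hj' => absurd hj' (Nat.not_lt_zero _)⟩
    · left
      rw [setr_ne _ _ (by norm_num)]
      exact h144
    · rw [setr_ne _ _ (by norm_num)]
      omega
  · rintro k s' hk ⟨g1, g2, -⟩
    refine ⟨g1, g2.r0, ?_⟩
    change s'.r 0 ≤ W
    rw [g2.r0]
    omega
  · rintro k s' hk ⟨g1, g2, g3, g4, g5⟩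
    have hP : Par a (n / Γ) n A W := ⟨by omega, hb, hA, w2⟩
    refine ex_mono (inner hGSL hFR a (n / Γ) n A W k s' hP hk g2 g1 g3 g4 g5 hN) le_rfl ?_
    rintro s'' ⟨k1, k2, k3, k4, k5⟩
    refine ⟨k2, setr_self _ _ _, base_setr k1 4 _ le_rfl, out_setr k3 4 _ (by norm_num), ?_, ?_⟩
    · rw [setr_ne _ _ (by norm_num)]; exact k4
    · rw [setr_ne _ _ (by norm_num)]; exact k5
  · rintro s' ⟨-, -, hO, -, hc⟩ ⟨j, hj, g, hg, τ, hτ, hcost, X, hX, hmin, hK⟩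
    have h1 : s'.r 14 ≤ valF n A j (bits X) := hc j hj τ hτ g hg hcost X hX hK
    have h2 := valF_le n A j (bits X) hA
    rcases hO with h | ⟨h, h'⟩
    · omega
    · refine ⟨h, fun y hy => ?_⟩
      have hn : 0 < n := by omega
      obtain ⟨X', hX', hbit⟩ := exists_bits n (fun i => y ((i + j) % n))
        fun i _ => hy _ (Nat.mod_lt _ hn)
      rw [hROT n A j (bits X') y hj fun i hi => (hbit i hi).symm, ← h']
      exact h1.trans (hmin X' hX')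

end Pool.Agent.H4.MXC.PRG
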